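import Pool.Agent.helper43.DHB.SpecB

/-! # bFGP (helper26): the gap of the families with the numbers of `BAT` -/

set_option autoImplicit false

open Filter Topology MeasureTheory
open scoped commutatorElement

namespace Pool.Agent.helper90.DH

open Pool.Agent.helper64.D2

lemma bFGP_bpr {Ω : Type} [Fintype Ω] {A B : Set Ω} (h : A ⊆ B) : bpr A ≤ bpr B := by
  unfold bpr
  have h1 : Set.ncard A ≤ Set.ncard B := Set.ncard_le_ncard h (Set.toFinite B)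
  have h2 : (Set.ncard A : ℝ) ≤ (Set.ncard B : ℝ) := by exact_mod_cast h1
  exact div_le_div_of_nonneg_right h2 (Nat.cast_nonneg _)

lemma bFGP_fam (q m φ : ℕ) (hφ : φ < m) : q / m ≤ (fam q m φ).card := by
  have hm : 0 < m := by omega
  have h : (Finset.range (q / m)).image (fun j => j * m + φ) ⊆ fam q m φ := by
    intro x hx
    rw [Finset.mem_image] at hx
    obtain ⟨j, hj, rfl⟩ := hx
    rw [Finset.mem_range] at hj
    unfold fam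
    rw [Finset.mem_filter, Finset.mem_range]
    constructor
    · have h1 : (j + 1) * m ≤ q := (Nat.le_div_iff_mul_le hm).mp hj
      have h2 : (j + 1) * m = j * m + m := by ring
      omega
    · rw [Nat.add_mod, Nat.mul_mod_left, zero_add, Nat.mod_mod, Nat.mod_eq_of_lt hφ]
  calc q / m = ((Finset.range (q / m)).image (fun j => j * m + φ)).card := by
        rw [Finset.card_image_of_injective, Finset.card_range]
        intro a b hab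
        have h1 : a * m = b * m := by simpa using hab
        exact Nat.eq_of_mul_eq_mul_right hm h1
    _ ≤ _ := Finset.card_le_card h

lemma bFGP_nsq (f : ℝ → ℝ) : 0 ≤ nsq f := by
  unfold nsq
  exact integral_nonneg fun x => sq_nonneg _

lemma bFGP_lam {q m φ : ℕ} {C : ℕ → ℝ → ℝ} {s : ℕ} {a b : ℝ} (ha : 0 ≤ a) (hab : a ≤ b)
    (h : FGf q m φ C s a) : FGf q m φ C s b := by
  intro f h1 h2 h3
  refine (h f h1 h2 h3).trans ?_
  have := bFGP_nsq f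
  gcongr

lemma bFGP_congr {q m φ : ℕ} {C C' : ℕ → ℝ → ℝ} {s : ℕ} {a : ℝ} (hC : ∀ i, i % m = φ → C i = C' i)
    (h : FGf q m φ C s a) : FGf q m φ C' s a := by
  intro f h1 h2 h3
  have h4 : Tff q m φ C' f = Tff q m φ C f := by
    funext x
    unfold Tff
    congr 1
    refine Finset.sum_congr rfl fun i hi => ?_
    unfold fam at hi
    rw [hC i (Finset.mem_filter.mp hi).2]
  rw [h4]
  exact h f h1 h2 h3

/-- `log (n+1) ≤ 4 √n` for `n ≥ 1`. -/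
lemma bFGP_log (n : ℝ) (hn : 1 ≤ n) : Real.log (n + 1) ≤ 4 * √n := by
  have h1 : Real.log (n + 1) = 2 * Real.log (√(n + 1)) := by
    rw [Real.log_sqrt (by linarith)]; ring
  have h2 : Real.log (√(n + 1)) ≤ √(n + 1) := by
    have := Real.log_le_sub_one_of_pos (Real.sqrt_pos.mpr (by linarith : (0 : ℝ) < n + 1))
    linarith
  have h3 : √(n + 1) ≤ 2 * √n := by
    rw [show (2 : ℝ) * √n = √(4 * n) by
      rw [Real.sqrt_mul (by norm_num), show (4 : ℝ) = 2 ^ 2 by norm_num, Real.sqrt_sq (by norm_num)]]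
    exact Real.sqrt_le_sqrt (by linarith)
  rw [h1]
  linarith

lemma bFGP_nlog (K b n : ℝ) (hK : 1 ≤ K) (hb : 0 < b) (hb1 : b ≤ 1) (hn : 16 * K ^ 2 / b ^ 4 ≤ n) :
    K * Real.log (n + 1) ≤ b ^ 2 * n := by
  have hb4 : 0 < b ^ 4 := by positivity
  have h0 : 16 * K ^ 2 ≤ n * b ^ 4 := by rwa [div_le_iff₀ hb4] at hn
  have hn0 : 0 ≤ n := le_trans (by positivity) hn
  have hn1 : 1 ≤ n := by
    have h1 : b ^ 4 ≤ 1 := pow_le_one₀ hb.le hb1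
    have h2 : 1 ≤ K ^ 2 := one_le_pow₀ hK
    nlinarith
  have h1 := bFGP_log n hn1
  have h2 : 4 * K ≤ b ^ 2 * √n := by
    have h3 : (4 * K) ^ 2 ≤ (b ^ 2 * √n) ^ 2 := by
      rw [mul_pow (b ^ 2), Real.sq_sqrt hn0]
      nlinarith
    exact (abs_le_of_sq_le_sq' h3 (by positivity)).2
  calc K * Real.log (n + 1) ≤ K * (4 * √n) := by gcongr
    _ = 4 * K * √n := by ring
    _ ≤ b ^ 2 * √n * √n := by gcongr
    _ = b ^ 2 * n := by rw [mul_assoc, Real.mul_self_sqrt hn0]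

lemma bFGP_blog (w0 : ℕ) : Real.log (2 / (1 / 4 ^ w0)) ≤ 1 + 2 * w0 := by
  have h1 : (2 : ℝ) / (1 / 4 ^ w0) = 2 ^ (1 + 2 * w0) := by
    rw [pow_add, pow_mul]
    norm_num
  rw [h1, Real.log_pow]
  have h2 := Real.log_two_lt_d9
  push_cast
  have h3 : (0 : ℝ) ≤ 1 + 2 * w0 := by positivity
  nlinarith

lemma bFGP_blog' (w0 : ℕ) : 1 / 4 ^ w0 * Real.log (2 / (1 / 4 ^ w0)) ≤ 2 * (1 / 2 ^ w0) := by
  have h1 := bFGP_blog w0
  have h2 : (w0 : ℝ) + 1 ≤ 2 ^ w0 := by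
    have : w0 + 1 ≤ 2 ^ w0 := Nat.lt_two_pow_self
    exact_mod_cast this
  have h3 : (1 : ℝ) + 2 * w0 ≤ 2 * 2 ^ w0 := by linarith
  have h4 : (4 : ℝ) ^ w0 = 2 ^ w0 * 2 ^ w0 := by
    rw [← mul_pow]; norm_num
  have hp : (0 : ℝ) < 2 ^ w0 := by positivity
  calc 1 / 4 ^ w0 * Real.log (2 / (1 / 4 ^ w0)) ≤ 1 / 4 ^ w0 * (2 * 2 ^ w0) := by
        gcongr; linarith
    _ = 2 * (1 / 2 ^ w0) := by
        rw [h4]; field_simp

theorem bFGP (hFGQ : bFGQ_stmt) (hSJB : bSJB_stmt) (hNMF : bNMF_stmt) : bFGP_stmt := by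
  intro β hβ
  obtain ⟨Kb, K, hKb, hK, hmain⟩ := hFGQ β hβ
  refine ⟨7 * K, 0, by linarith, ?_⟩
  intro w0 _
  set b : ℝ := 1 / 4 ^ w0 with hb_def
  have hb0 : 0 < b := by positivity
  have hb1 : b ≤ 1 := by
    rw [hb_def, div_le_one (by positivity)]
    exact one_le_pow₀ (by norm_num)
  set th : ℝ := b ^ 2 / (108 * 2 ^ w0) with hth_def
  have hth0 : 0 < th := by positivity
  set M : ℕ := 8 + w0 + (3 * w0 * 2 ^ w0 + 2 * w0 + 1) + ⌈1000 * Kb⌉₊ + ⌈2 * 2 ^ w0 * (16 * K ^ 2 / b ^ 4)⌉₊ +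
    ⌈24 * K * (1 + 2 * w0) * 2 ^ w0 / b ^ 2⌉₊ + 2 * 2 ^ w0 with hM_def
  obtain ⟨ρ0, hρ0⟩ := hSJB w0 M
  refine ⟨th, ρ0, hth0, ?_⟩
  intro ρ hρ t P E hPE hspr φ hφ s hs1 hs2
  obtain ⟨hMρ, -, hMbu, -, hs6, hφb, -⟩ := hρ0 ρ hρ t
  obtain ⟨hamp1, hamp2, -⟩ := hφb φ hφ
  set u : ℕ := bu w0 (ρ ^ 2) t with hu_def
  set A : ℕ := amp w0 (ρ ^ 2) t φ with hA_def
  set S : ℕ := sj (ρ ^ 2) (t + 1) with hS_def
  -- natural number facts
  have hM8 : 8 ≤ M := by omega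
  have hMw : w0 ≤ M := by omega
  have hM3 : 3 * w0 * 2 ^ w0 + 2 * w0 + 1 ≤ M := by omega
  have hMm : 2 * 2 ^ w0 ≤ M := by omega
  have hu8 : 8 ≤ u := le_trans hM8 hMbu
  have hus : u ≤ s := by omega
  -- real facts for M
  have hMK1 : 1000 * Kb ≤ (M : ℝ) := by
    refine (Nat.le_ceil _).trans ?_
    exact_mod_cast (by omega : ⌈1000 * Kb⌉₊ ≤ M)
  have hMK2 : 2 * 2 ^ w0 * (16 * K ^ 2 / b ^ 4) ≤ (M : ℝ) := by
    refine (Nat.le_ceil _).trans ?_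
    exact_mod_cast (by omega : ⌈2 * 2 ^ w0 * (16 * K ^ 2 / b ^ 4)⌉₊ ≤ M)
  have hMK3 : 24 * K * (1 + 2 * w0) * 2 ^ w0 / b ^ 2 ≤ (M : ℝ) := by
    refine (Nat.le_ceil _).trans ?_
    exact_mod_cast (by omega : ⌈24 * K * (1 + 2 * w0) * 2 ^ w0 / b ^ 2⌉₊ ≤ M)
  have hMρ' : (M : ℝ) ≤ ρ := by exact_mod_cast hMρ
  have hρ1 : (1 : ℝ) ≤ ρ := by
    have : 1 ≤ ρ := by omega
    exact_mod_cast this
  have h2A : (0 : ℝ) < 2 ^ A := by positivity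
  have h2s : (0 : ℝ) < 2 ^ s := by positivity
  have h2w : (0 : ℝ) < 2 ^ w0 := by positivity
  -- the family
  set n : ℕ := (fam (ρ ^ 4) (2 ^ w0) φ).card with hn_def
  have hnlow : (ρ : ℝ) ^ 4 / (2 * 2 ^ w0) ≤ n := by
    have h1 := bFGP_fam (ρ ^ 4) (2 ^ w0) φ hφ
    have h2 : (ρ ^ 4 / 2 ^ w0 + 1) * 2 ^ w0 ≥ ρ ^ 4 := by
      have h3 := Nat.div_add_mod (ρ ^ 4) (2 ^ w0)
      have h4 := Nat.mod_lt (ρ ^ 4) (show 0 < 2 ^ w0 by positivity)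
      have h5 : (ρ ^ 4 / 2 ^ w0 + 1) * 2 ^ w0 = 2 ^ w0 * (ρ ^ 4 / 2 ^ w0) + 2 ^ w0 := by ring
      omega
    have h3 : ρ ^ 4 ≤ (n + 1) * 2 ^ w0 := le_trans h2 (Nat.mul_le_mul_right _ (by omega))
    have h4 : (ρ : ℝ) ^ 4 ≤ (n + 1) * 2 ^ w0 := by exact_mod_cast h3
    have h5 : (2 : ℝ) * 2 ^ w0 ≤ ρ ^ 4 := by
      have h6 : (2 : ℝ) * 2 ^ w0 ≤ M := by exact_mod_cast hMm
      have h7 : (ρ : ℝ) ≤ ρ ^ 4 := by
        calc (ρ : ℝ) = ρ ^ 1 := (pow_one _).symm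
          _ ≤ ρ ^ 4 := pow_le_pow_right₀ hρ1 (by norm_num)
      linarith
    rw [div_le_iff₀ (by positivity)]
    nlinarith
  have hρ4 : (ρ : ℝ) ≤ ρ ^ 4 := by
    calc (ρ : ℝ) = ρ ^ 1 := (pow_one _).symm
      _ ≤ ρ ^ 4 := pow_le_pow_right₀ hρ1 (by norm_num)
  have hn16 : 16 * K ^ 2 / b ^ 4 ≤ (n : ℝ) := by
    refine le_trans ?_ hnlow
    rw [le_div_iff₀ (by positivity)]
    calc 16 * K ^ 2 / b ^ 4 * (2 * 2 ^ w0) = 2 * 2 ^ w0 * (16 * K ^ 2 / b ^ 4) := by ring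
      _ ≤ (M : ℝ) := hMK2
      _ ≤ (ρ : ℝ) := hMρ'
      _ ≤ (ρ : ℝ) ^ 4 := hρ4
  have hnpos : 0 < n := by
    have h1 : (0 : ℝ) < n := lt_of_lt_of_le (by positivity) hnlow
    exact_mod_cast h1
  have hne : (fam (ρ ^ 4) (2 ^ w0) φ).Nonempty := Finset.card_pos.mp hnpos
  -- the constant ks
  set ks : ℝ := (u : ℝ) / (2 * (ρ : ℝ) ^ 3) with hks_def
  have hks0 : 0 ≤ ks := by positivity
  have hNpos : 0 < 2 ^ S := by positivity
  have hNcast : ((2 ^ S : ℕ) : ℝ) = 2 ^ S := by push_cast; rfl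
  -- apply bFGQ
  have hcl : Kb * (1 / 2 ^ A) * 2 ^ u ≤ 1 / 1000 := by
    have h1 : (2 : ℝ) ^ u * 2 ^ M ≤ 2 ^ A := by
      rw [← pow_add]
      exact pow_le_pow_right₀ (by norm_num) (by omega)
    have h2 : (M : ℝ) ≤ 2 ^ M := by
      have : M ≤ 2 ^ M := Nat.lt_two_pow_self.le
      exact_mod_cast this
    have h3 : 1000 * Kb ≤ 2 ^ M := hMK1.trans h2
    have h4 : (0 : ℝ) < 2 ^ u := by positivity
    rw [mul_one_div, div_mul_eq_mul_div, div_le_iff₀ h2A]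
    nlinarith
  have hsN : (2 : ℝ) ^ s * (1 / 2 ^ A) / ((2 ^ S : ℕ) : ℝ) ≤ 1 / 4 ^ w0 / 2 := by
    rw [hNcast]
    have h1 : (2 : ℝ) ^ s * (2 * 4 ^ w0) ≤ 2 ^ A * 2 ^ S := by
      have h2 : (2 : ℝ) * 4 ^ w0 = 2 ^ (1 + 2 * w0) := by
        rw [pow_add, pow_mul]; norm_num
      rw [h2, ← pow_add, ← pow_add]
      exact pow_le_pow_right₀ (by norm_num) (by omega)
    have h3 : (0 : ℝ) < 2 ^ S := by positivity
    have h4 : (0 : ℝ) < 4 ^ w0 := by positivity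
    rw [mul_one_div, div_div, div_div, div_le_div_iff₀ (by positivity) (by positivity)]
    nlinarith
  have hfour : (1 : ℝ) / 4 ^ w0 ≤ 1 := hb1
  have hcond2 : 2 * 2 ^ s * (1 / 2 ^ A) / ((2 ^ S : ℕ) : ℝ) ≤ 1 := by
    have h1 : 2 * 2 ^ s * (1 / 2 ^ A) / ((2 ^ S : ℕ) : ℝ) = 2 * (2 ^ s * (1 / 2 ^ A) / ((2 ^ S : ℕ) : ℝ)) := by ring
    rw [h1]
    linarith
  have hnlogk : K * (s : ℝ) * Real.log (2 / b) ≤ b ^ 2 * n * ks := by
    have h1 : Real.log (2 / b) ≤ 1 + 2 * w0 := bFGP_blog w0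
    have h2 : (s : ℝ) ≤ 6 * u := by
      have : s ≤ 6 * u := le_trans hs2 hs6
      exact_mod_cast this
    have h3 : 24 * K * (1 + 2 * w0) * 2 ^ w0 ≤ ρ * b ^ 2 := by
      have := hMK3.trans hMρ'
      rwa [div_le_iff₀ (by positivity)] at this
    have h4 : b ^ 2 * ((ρ : ℝ) ^ 4 / (2 * 2 ^ w0)) * ks = b ^ 2 * ρ * u / (4 * 2 ^ w0) := by
      rw [hks_def]
      have : (ρ : ℝ) ≠ 0 := by positivity
      field_simp
      ring
    have h5 : 0 ≤ Real.log (2 / b) := by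
      apply Real.log_nonneg
      rw [le_div_iff₀ hb0]
      linarith
    calc K * (s : ℝ) * Real.log (2 / b) ≤ K * (6 * u) * (1 + 2 * w0) := by gcongr
      _ = (24 * K * (1 + 2 * w0) * 2 ^ w0) * u / (4 * 2 ^ w0) := by
          field_simp
          ring
      _ ≤ (ρ * b ^ 2) * u / (4 * 2 ^ w0) := by gcongr
      _ = b ^ 2 * ((ρ : ℝ) ^ 4 / (2 * 2 ^ w0)) * ks := by rw [h4]; ring
      _ ≤ b ^ 2 * n * ks := by gcongr
  have hthq : 54 * th * ((ρ ^ 4 : ℕ) : ℝ) ≤ b ^ 2 * n := by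
    push_cast
    calc 54 * th * (ρ : ℝ) ^ 4 = b ^ 2 * ((ρ : ℝ) ^ 4 / (2 * 2 ^ w0)) := by
          rw [hth_def]; field_simp; ring
      _ ≤ b ^ 2 * n := by gcongr
  have hfin := hmain (ρ ^ 4) (2 ^ w0) φ u s (2 ^ S) (fun i => ev (P i)) (fun i => ev (E i)) (1 / 2 ^ A) th b ks
    (fun i => by
      obtain ⟨h1, h2⟩ := hNMF.1 (P i) (1 / 1000) (by norm_num) (hPE i).1
      obtain ⟨h3, -⟩ := hNMF.1 (E i) (1 / 1000) (by norm_num) (hPE i).2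
      refine ⟨h1, fun x y => (h2 x y).trans ?_, h3⟩
      have := abs_nonneg (x - y)
      linarith)
    (by positivity) hcl hu8 hus hNpos hcond2 hb0 hb1 hth0.le hks0 hne hthq
    (fun k hk => by
      have h1 : 2 * k * ρ ^ 3 ≤ u := by
        rw [hks_def, lt_div_iff₀ (by positivity)] at hk
        have h2 : ((2 * k * ρ ^ 3 : ℕ) : ℝ) ≤ u := by
          push_cast
          linarith
        exact_mod_cast h2
      have h3 := hspr u k le_rfl h1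
      intro p E' hp hE' hE''
      refine h3 p E' hp (fun e he => ?_) hE''
      obtain ⟨ha, hb, hc, hd⟩ := hE' e he
      exact ⟨ha, hb, hc, hd⟩)
    (bFGP_nlog K b n hK hb0 hb1 hn16) hnlogk
  refine le_trans (bFGP_bpr ?_) hfin
  intro w hw hw'
  apply hw
  have hlam0 : 0 ≤ 2 * (K * b * Real.log (2 / b)) + K * (1 / (2 ^ s * (1 / 2 ^ A)) + 1 / 2 ^ A + √(2 ^ s * (1 / 2 ^ A) / ((2 ^ S : ℕ) : ℝ))) := by
    have h5 : 0 ≤ Real.log (2 / b) := by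
      apply Real.log_nonneg
      rw [le_div_iff₀ hb0]
      linarith
    positivity
  have hlam : 2 * (K * b * Real.log (2 / b)) + K * (1 / (2 ^ s * (1 / 2 ^ A)) + 1 / 2 ^ A + √(2 ^ s * (1 / 2 ^ A) / ((2 ^ S : ℕ) : ℝ))) ≤
      7 * K / 2 ^ w0 := by
    have h1 := bFGP_blog' w0
    have h2 : 1 / ((2 : ℝ) ^ s * (1 / 2 ^ A)) ≤ 1 / 2 ^ w0 := by
      rw [mul_one_div, one_div_div, div_le_div_iff₀ h2s h2w, one_mul, ← pow_add]
      exact pow_le_pow_right₀ (by norm_num) hs1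
    have h3 : 1 / (2 : ℝ) ^ A ≤ 1 / 2 ^ w0 := by
      apply one_div_le_one_div_of_le h2w
      exact pow_le_pow_right₀ (by norm_num) (by omega)
    have h4 : √(2 ^ s * (1 / 2 ^ A) / ((2 ^ S : ℕ) : ℝ)) ≤ 1 / 2 ^ w0 := by
      have h6 : (1 : ℝ) / 2 ^ w0 = √(1 / 4 ^ w0) := by
        rw [show (1 : ℝ) / 4 ^ w0 = (1 / 2 ^ w0) ^ 2 by
          rw [div_pow, one_pow, ← pow_mul, mul_comm w0 2, pow_mul]; norm_num]
        rw [Real.sqrt_sq (by positivity)]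
      rw [h6]
      apply Real.sqrt_le_sqrt
      have h7 : (0 : ℝ) < 1 / 4 ^ w0 := by positivity
      linarith
    calc 2 * (K * b * Real.log (2 / b)) + K * (1 / (2 ^ s * (1 / 2 ^ A)) + 1 / 2 ^ A + √(2 ^ s * (1 / 2 ^ A) / ((2 ^ S : ℕ) : ℝ)))
        = 2 * K * (b * Real.log (2 / b)) + K * (1 / (2 ^ s * (1 / 2 ^ A)) + 1 / 2 ^ A + √(2 ^ s * (1 / 2 ^ A) / ((2 ^ S : ℕ) : ℝ))) := by ring
      _ ≤ 2 * K * (2 * (1 / 2 ^ w0)) + K * (1 / 2 ^ w0 + 1 / 2 ^ w0 + 1 / 2 ^ w0) := by gcongr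
      _ = 7 * K / 2 ^ w0 := by ring
  refine bFGP_congr ?_ (bFGP_lam hlam0 hlam hw')
  intro i hi
  funext x
  unfold CMf
  simp only [hi]
  rfl

end Pool.Agent.helper90.DH
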